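import Pool.Agent.X260.RA.Fin

/-! Question 1 of MP_71554c_al in full: amalgams of residually amenable groups over virtually cyclic
virtual retracts are residually amenable.

Proof. (1) If `N` is amenable, `f : N → ℤ` is a homomorphism and `f(d₁) = f(d₂) ≠ 0`, then `N` embeds in an
amenable group in which `d₁` and `d₂` are conjugate: adjoin roots `wᵢ` with `wᵢ^f(dᵢ) = dᵢ` (in
`N wr ℤ/f(dᵢ)`), send `n` to the function `ℤ → N wr ℤ/f(dᵢ)` with the value `n` at `0`, `w₁^f(n)` at `k > 0`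
and `w₂^f(n)` at `k < 0`, and use the shift. (2) By (1) and by an induced monomial representation, finitely
many elements of the amalgam `G` can be separated from `1` and from `G₀` in one homomorphism `β : G → B`
with `B` amenable. (3) The amalgam maps to `S^(S^(B/H)) ⋊ B`, where `H = β(G₀)` and `S` is a finite symmetric
group; this group is amenable, and a reduced word survives for a suitable `S`. -/

set_option autoImplicit false

namespace Pool.Agent.Results.MP_71554c_al.ResiduallyAmenableAmalgams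

open Monoid

universe u

/-- `G` is amenable: there is a left-invariant finitely additive probability measure on all
subsets of `G`. -/
def IsAmenable (G : Type u) [Group G] : Prop :=
  ∃ m : Set G → ℝ, (∀ A, 0 ≤ m A) ∧ m Set.univ = 1 ∧
    (∀ A B, Disjoint A B → m (A ∪ B) = m A + m B) ∧
    ∀ (g : G) (A : Set G), m ((fun x => g * x) '' A) = m A

/-- residually amenable: every nontrivial element has a nontrivial image in some amenable group -/
def IsResiduallyAmenable (G : Type u) [Group G] : Prop :=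
  ∀ g : G, g ≠ 1 → ∃ (A : Type u) (_ : Group A), IsAmenable A ∧ ∃ φ : G →* A, φ g ≠ 1

/-- virtually cyclic: some subgroup of finite index is cyclic -/
def IsVirtuallyCyclic (H : Type u) [Group H] : Prop :=
  ∃ C : Subgroup H, C.FiniteIndex ∧ IsCyclic C

/-- `H` is a virtual retract of `G`: there is a retraction onto `H` of a subgroup of finite index
containing `H` -/
def IsVirtualRetract {G : Type u} [Group G] (H : Subgroup G) : Prop :=
  ∃ (K : Subgroup G) (hK : H ≤ K) (ρ : K →* H), K.FiniteIndex ∧ ∀ h : H, ρ ⟨h, hK h.2⟩ = h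

section amalg

variable {G₀ G₁ G₂ : Type u} [Group G₀] [Group G₁] [Group G₂]

/-- the amalgamated free product: the quotient of the free product of `G₁` and `G₂` by the normal
closure of the elements `i₁(g) i₂(g)⁻¹`, `g ∈ G₀` -/
abbrev Amalg (i₁ : G₀ →* G₁) (i₂ : G₀ →* G₂) : Type u :=
  Coprod G₁ G₂ ⧸ Subgroup.normalClosure
    {x : Coprod G₁ G₂ | ∃ g : G₀, x = Coprod.inl (i₁ g) * (Coprod.inr (i₂ g))⁻¹}

end amalg

/-- Let `G₁`, `G₂` be residually amenable groups, `G₀` a virtually cyclic group, `i₁ : G₀ → G₁` and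
`i₂ : G₀ → G₂` injective homomorphisms whose images are virtual retracts. Then the amalgamated free
product `G₁ *_{G₀} G₂` is residually amenable. -/
theorem result {G₀ G₁ G₂ : Type u} [Group G₀] [Group G₁] [Group G₂]
    (h₁ : IsResiduallyAmenable G₁) (h₂ : IsResiduallyAmenable G₂) (h₀ : IsVirtuallyCyclic G₀)
    (i₁ : G₀ →* G₁) (i₂ : G₀ →* G₂) (j₁ : Function.Injective i₁) (j₂ : Function.Injective i₂)
    (v₁ : IsVirtualRetract i₁.range) (v₂ : IsVirtualRetract i₂.range) :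
    IsResiduallyAmenable (Amalg i₁ i₂) := by
  obtain ⟨K₁, hK₁, ρ₁, f₁, r₁⟩ := v₁
  obtain ⟨K₂, hK₂, ρ₂, f₂, r₂⟩ := v₂
  have aux : ∀ {G : Type u} [Group G] (i : G₀ →* G) (j : Function.Injective i) (K : Subgroup G)
      (hK : i.range ≤ K) (ρ : K →* i.range) (_ : ∀ h : i.range, ρ ⟨h, hK h.2⟩ = h) (g : G₀),
      ((MonoidHom.ofInjective j).symm.toMonoidHom.comp ρ) ⟨i g, hK ⟨g, rfl⟩⟩ = g := by
    intro G _ i j K hK ρ hρ g
    show (MonoidHom.ofInjective j).symm (ρ ⟨i g, hK ⟨g, rfl⟩⟩) = g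
    rw [hρ ⟨i g, ⟨g, rfl⟩⟩, MulEquiv.symm_apply_eq]
    rfl
  refine Pool.Agent.X260.RA.main i₁ i₂ h₁ h₂ h₀
    ((QuotientGroup.mk' _).comp Coprod.inl) ((QuotientGroup.mk' _).comp Coprod.inr) ?_ ?_ ?_
    K₁ (fun g => hK₁ ⟨g, rfl⟩) ((MonoidHom.ofInjective j₁).symm.toMonoidHom.comp ρ₁)
    (aux i₁ j₁ K₁ hK₁ ρ₁ r₁)
    K₂ (fun g => hK₂ ⟨g, rfl⟩) ((MonoidHom.ofInjective j₂).symm.toMonoidHom.comp ρ₂)
    (aux i₂ j₂ K₂ hK₂ ρ₂ r₂) f₁ f₂
  · intro g
    show (QuotientGroup.mk (Coprod.inl (i₁ g)) : Amalg i₁ i₂) = QuotientGroup.mk (Coprod.inr (i₂ g))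
    rw [eq_comm, QuotientGroup.eq]
    have h1 : Coprod.inl (i₁ g) * (Coprod.inr (i₂ g))⁻¹ ∈ Subgroup.normalClosure
        {x : Coprod G₁ G₂ | ∃ g : G₀, x = Coprod.inl (i₁ g) * (Coprod.inr (i₂ g))⁻¹} :=
      Subgroup.subset_normalClosure ⟨g, rfl⟩
    have h2 := Subgroup.normalClosure_normal.conj_mem _ h1 (Coprod.inr (i₂ g))⁻¹
    have h3 : (Coprod.inr (i₂ g) : Coprod G₁ G₂)⁻¹ * Coprod.inl (i₁ g) =
        (Coprod.inr (i₂ g))⁻¹ * (Coprod.inl (i₁ g) * (Coprod.inr (i₂ g))⁻¹) *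
          ((Coprod.inr (i₂ g))⁻¹)⁻¹ := by group
    rw [h3]
    exact h2
  · rw [MonoidHom.range_comp, MonoidHom.range_comp, ← Subgroup.map_sup,
      Coprod.range_inl_sup_range_inr, ← MonoidHom.range_eq_map]
    exact MonoidHom.range_eq_top.2 (QuotientGroup.mk'_surjective _)
  · intro W _ β₁ β₂ hβ
    refine ⟨QuotientGroup.lift _ (Coprod.lift β₁ β₂) ?_, fun g => Coprod.lift_apply_inl β₁ β₂ g,
      fun g => Coprod.lift_apply_inr β₁ β₂ g⟩
    refine Subgroup.normalClosure_le_normal ?_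
    rintro _ ⟨g, rfl⟩
    show Coprod.lift β₁ β₂ (Coprod.inl (i₁ g) * (Coprod.inr (i₂ g))⁻¹) = 1
    rw [map_mul, map_inv, Coprod.lift_apply_inl, Coprod.lift_apply_inr, hβ, mul_inv_cancel]

end Pool.Agent.Results.MP_71554c_al.ResiduallyAmenableAmalgams
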